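import Mathlib

/-! # The field of meromorphic functions on the plane (MP_45e720_ag) -/

set_option autoImplicit false

open Filter Topology Set

namespace Pool.Agent.PT

/-- germs of functions on the plane along the complements of closed discrete sets -/
abbrev CG : Type := Germ (codiscrete ℂ) ℂ

/-- the ring of the germs of meromorphic functions -/
noncomputable def merRing : Subring CG where
  carrier := {g | ∃ f : ℂ → ℂ, Meromorphic f ∧ (f : CG) = g}
  mul_mem' := by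
    rintro _ _ ⟨f, hf, rfl⟩ ⟨g, hg, rfl⟩
    exact ⟨f * g, hf.mul hg, rfl⟩
  one_mem' := ⟨fun _ => 1, Meromorphic.const 1, rfl⟩
  add_mem' := by
    rintro _ _ ⟨f, hf, rfl⟩ ⟨g, hg, rfl⟩
    exact ⟨f + g, hf.add hg, rfl⟩
  zero_mem' := ⟨fun _ => 0, Meromorphic.const 0, rfl⟩
  neg_mem' := by
    rintro _ ⟨f, hf, rfl⟩
    exact ⟨-f, hf.neg, rfl⟩

/-- the field of the meromorphic functions on the plane -/
def Mer : Type := merRing

noncomputable instance : CommRing Mer := inferInstanceAs (CommRing merRing)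

/-- the element of `Mer` given by a meromorphic function -/
noncomputable def mk (f : ℂ → ℂ) (hf : Meromorphic f) : Mer := ⟨(f : CG), f, hf, rfl⟩

theorem mk_eq_mk {f g : ℂ → ℂ} {hf : Meromorphic f} {hg : Meromorphic g} :
    mk f hf = mk g hg ↔ f =ᶠ[codiscrete ℂ] g :=
  ⟨fun h => Germ.coe_eq.1 (congrArg Subtype.val h), fun h => Subtype.ext (Germ.coe_eq.2 h)⟩

theorem exists_mk (g : Mer) : ∃ (f : ℂ → ℂ) (hf : Meromorphic f), mk f hf = g := by
  obtain ⟨g, f, hf, h⟩ := g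
  exact ⟨f, hf, Subtype.ext h⟩

theorem mk_add {f g : ℂ → ℂ} (hf : Meromorphic f) (hg : Meromorphic g) :
    mk f hf + mk g hg = mk (f + g) (hf.add hg) := rfl

theorem mk_mul {f g : ℂ → ℂ} (hf : Meromorphic f) (hg : Meromorphic g) :
    mk f hf * mk g hg = mk (f * g) (hf.mul hg) := rfl

theorem mk_zero : mk (fun _ => 0) (Meromorphic.const 0) = 0 := rfl

theorem mk_one : mk (fun _ => 1) (Meromorphic.const 1) = 1 := rfl

theorem ev_iff {p : ℂ → Prop} : (∀ᶠ z in codiscrete ℂ, p z) ↔ ∀ x, ∀ᶠ y in 𝓝[≠] x, p y := by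
  have h := mem_codiscreteWithin_iff_forall_mem_nhdsNE (X := ℂ) (S := {z | p z}) (T := univ)
  simp only [mem_univ, forall_true_left, compl_univ, union_empty] at h
  exact h

instance : (codiscrete ℂ).NeBot := by
  refine ⟨fun h => ?_⟩
  have h1 : ∀ᶠ z in codiscrete ℂ, False := by simp [h]
  exact (ev_iff.1 h1 0).exists.elim fun _ h => h

theorem mer_ne {f : ℂ → ℂ} (hf : Meromorphic f) (h : ¬ f =ᶠ[codiscrete ℂ] fun _ => 0) :
    ∀ᶠ z in codiscrete ℂ, f z ≠ 0 := by
  have h1 : ∃ u, meromorphicOrderAt f u ≠ ⊤ := by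
    by_contra hc
    push Not at hc
    exact h (ev_iff.2 fun x => meromorphicOrderAt_eq_top_iff.1 (hc x))
  have h2 := hf.exists_meromorphicOrderAt_ne_top_iff_forall.1 h1
  exact ev_iff.2 fun x => (meromorphicOrderAt_ne_top_iff_eventually_ne_zero (hf x)).1 (h2 x)

theorem mer_isField : IsField Mer := by
  refine ⟨⟨0, 1, fun h => ?_⟩, mul_comm, fun {a} ha => ?_⟩
  · rw [← mk_zero, ← mk_one, mk_eq_mk] at h
    obtain ⟨z, hz⟩ := h.exists
    exact zero_ne_one hz
  · obtain ⟨f, hf, rfl⟩ := exists_mk a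
    refine ⟨mk f⁻¹ hf.inv, ?_⟩
    rw [mk_mul, ← mk_one, mk_eq_mk]
    filter_upwards [mer_ne hf fun h => ha (by rw [← mk_zero, mk_eq_mk]; exact h)] with z hz
    exact mul_inv_cancel₀ hz

noncomputable instance : Field Mer := mer_isField.toField

noncomputable instance : Algebra ℂ Mer :=
  RingHom.toAlgebra
    { toFun := fun c => mk (fun _ => c) (Meromorphic.const c)
      map_one' := rfl
      map_mul' := fun _ _ => rfl
      map_zero' := rfl
      map_add' := fun _ _ => rfl }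

theorem algebraMap_eq (c : ℂ) :
    algebraMap ℂ Mer c = mk (fun _ => c) (Meromorphic.const c) := rfl

theorem mk_inv {f : ℂ → ℂ} (hf : Meromorphic f) : (mk f hf)⁻¹ = mk f⁻¹ hf.inv := by
  by_cases h : mk f hf = 0
  · rw [h, inv_zero]
    rw [← mk_zero, mk_eq_mk] at h ⊢
    filter_upwards [h] with z hz
    simp [hz]
  · refine inv_eq_of_mul_eq_one_right ?_
    rw [mk_mul, ← mk_one, mk_eq_mk]
    filter_upwards [mer_ne hf fun h' => h (by rw [← mk_zero, mk_eq_mk]; exact h')] with z hz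
    exact mul_inv_cancel₀ hz

/-- the meromorphic function (in normal form) of an element of `Mer`: it is analytic at the
regular points, and `0` at the poles -/
noncomputable def fn (g : Mer) : ℂ → ℂ := toMeromorphicNFOn (exists_mk g).choose univ

/-- `z` is a regular point (not a pole) of `g` -/
def Reg (g : Mer) (z : ℂ) : Prop := AnalyticAt ℂ (fn g) z

theorem fn_nf (g : Mer) : MeromorphicNFOn (fn g) univ := meromorphicNFOn_toMeromorphicNFOn _ _

theorem fn_nfAt (g : Mer) (z : ℂ) : MeromorphicNFAt (fn g) z := fn_nf g (mem_univ z)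

theorem fn_mero (g : Mer) : Meromorphic (fn g) := fun z => (fn_nfAt g z).meromorphicAt

theorem mk_fn (g : Mer) : mk (fn g) (fn_mero g) = g := by
  obtain ⟨hf, h⟩ := (exists_mk g).choose_spec
  have h1 : (exists_mk g).choose =ᶠ[codiscrete ℂ] fn g :=
    toMeromorphicNFOn_eqOn_codiscrete (meromorphicOn_univ.2 hf)
  conv_rhs => rw [← h]
  exact mk_eq_mk.2 h1.symm

theorem fn_mk {f : ℂ → ℂ} (hf : Meromorphic f) : fn (mk f hf) =ᶠ[codiscrete ℂ] f :=
  mk_eq_mk.1 (mk_fn (mk f hf))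

/-- two functions in normal form which agree on a punctured neighbourhood are equal -/
theorem fn_eq_of_ne {f g : Mer} {z : ℂ} (h : fn f =ᶠ[𝓝[≠] z] fn g) : fn f =ᶠ[𝓝 z] fn g :=
  ((fn_nfAt f z).eventuallyEq_nhdsNE_iff_eventuallyEq_nhds (fn_nfAt g z)).1 h

theorem fn_add (f g : Mer) : fn (f + g) =ᶠ[codiscrete ℂ] fn f + fn g := by
  have h : mk (fn (f + g)) (fn_mero _) = mk (fn f + fn g) ((fn_mero f).add (fn_mero g)) := by
    rw [mk_fn, ← mk_add (fn_mero f) (fn_mero g), mk_fn, mk_fn]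
  exact mk_eq_mk.1 h

theorem fn_mul (f g : Mer) : fn (f * g) =ᶠ[codiscrete ℂ] fn f * fn g := by
  have h : mk (fn (f * g)) (fn_mero _) = mk (fn f * fn g) ((fn_mero f).mul (fn_mero g)) := by
    rw [mk_fn, ← mk_mul (fn_mero f) (fn_mero g), mk_fn, mk_fn]
  exact mk_eq_mk.1 h

/-- a regular point is recognised on a representative -/
theorem reg_mk {f : ℂ → ℂ} (hf : Meromorphic f) {z : ℂ} (h : AnalyticAt ℂ f z) :
    Reg (mk f hf) z ∧ fn (mk f hf) =ᶠ[𝓝 z] f := by
  have h1 : fn (mk f hf) =ᶠ[𝓝[≠] z] f := ev_iff.1 (fn_mk hf) z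
  have h2 : fn (mk f hf) =ᶠ[𝓝 z] f :=
    ((fn_nfAt _ z).eventuallyEq_nhdsNE_iff_eventuallyEq_nhds h.meromorphicNFAt).1 h1
  exact ⟨h.congr h2.symm, h2⟩

theorem reg_of_ne {f : Mer} {g : ℂ → ℂ} {z : ℂ} (hg : AnalyticAt ℂ g z)
    (h : fn f =ᶠ[𝓝[≠] z] g) : Reg f z ∧ fn f =ᶠ[𝓝 z] g := by
  have h2 : fn f =ᶠ[𝓝 z] g :=
    ((fn_nfAt _ z).eventuallyEq_nhdsNE_iff_eventuallyEq_nhds hg.meromorphicNFAt).1 h
  exact ⟨hg.congr h2.symm, h2⟩

theorem reg_const (c : ℂ) (z : ℂ) : Reg (algebraMap ℂ Mer c) z ∧ fn (algebraMap ℂ Mer c) z = c := by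
  have h := reg_mk (f := fun _ => c) (Meromorphic.const c) (z := z) analyticAt_const
  exact ⟨h.1, h.2.eq_of_nhds⟩

theorem reg_add {f g : Mer} {z : ℂ} (hf : Reg f z) (hg : Reg g z) :
    Reg (f + g) z ∧ fn (f + g) =ᶠ[𝓝 z] fn f + fn g :=
  reg_of_ne (hf.add hg) (ev_iff.1 (fn_add f g) z)

theorem reg_mul {f g : Mer} {z : ℂ} (hf : Reg f z) (hg : Reg g z) :
    Reg (f * g) z ∧ fn (f * g) =ᶠ[𝓝 z] fn f * fn g :=
  reg_of_ne (hf.mul hg) (ev_iff.1 (fn_mul f g) z)

theorem fn_inv (f : Mer) : fn f⁻¹ =ᶠ[codiscrete ℂ] (fn f)⁻¹ := by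
  have h : mk (fn f⁻¹) (fn_mero _) = mk (fn f)⁻¹ (fn_mero f).inv := by
    rw [mk_fn, ← mk_inv (fn_mero f), mk_fn]
  exact mk_eq_mk.1 h

/-- the normal form of the inverse is the inverse of the normal form -/
theorem fn_inv_eq (f : Mer) (z : ℂ) : fn f⁻¹ z = (fn f z)⁻¹ := by
  have h1 : fn f⁻¹ =ᶠ[𝓝[≠] z] (fn f)⁻¹ := ev_iff.1 (fn_inv f) z
  exact (((fn_nfAt _ z).eventuallyEq_nhdsNE_iff_eventuallyEq_nhds (fn_nfAt f z).inv).1 h1).eq_of_nhds

theorem fn_inv_eventually (f : Mer) (z : ℂ) : fn f⁻¹ =ᶠ[𝓝 z] (fn f)⁻¹ :=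
  Eventually.of_forall (fn_inv_eq f)

theorem reg_inv {f : Mer} {z : ℂ} (hf : Reg f z) (h : fn f z ≠ 0) : Reg f⁻¹ z :=
  (AnalyticAt.inv hf h).congr (fn_inv_eventually f z).symm

/-- at a pole, the value of `fn` is `0`, and the inverse is regular and vanishes -/
theorem pole {f : Mer} {z : ℂ} (h : ¬ Reg f z) : fn f z = 0 ∧ Reg f⁻¹ z ∧ fn f⁻¹ z = 0 := by
  have h1 : fn f z = 0 := by
    rcases meromorphicNFAt_iff_analyticAt_or.1 (fn_nfAt f z) with h2 | ⟨-, -, h2⟩
    · exact absurd h2 h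
    · exact h2
  have h3 : fn f⁻¹ z = 0 := by rw [fn_inv_eq, h1, inv_zero]
  refine ⟨h1, ?_, h3⟩
  have h4 : meromorphicOrderAt (fn f) z < 0 := by
    rcases meromorphicNFAt_iff_analyticAt_or.1 (fn_nfAt f z) with h2 | ⟨-, h2, -⟩
    · exact absurd h2 h
    · exact h2
  have h5 : meromorphicOrderAt (fn f⁻¹) z = - meromorphicOrderAt (fn f) z := by
    rw [meromorphicOrderAt_congr (ev_iff.1 (fn_inv f) z), meromorphicOrderAt_inv]
  have h6 : 0 ≤ meromorphicOrderAt (fn f⁻¹) z := by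
    rw [h5]
    revert h4
    cases meromorphicOrderAt (fn f) z with
    | top => simp
    | coe a =>
      intro h4
      have : a < 0 := by exact_mod_cast h4
      have h7 : (0 : ℤ) ≤ - a := by omega
      exact_mod_cast h7
  exact (fn_nfAt _ z).meromorphicOrderAt_nonneg_iff_analyticAt.1 h6

/-- identity theorem -/
theorem eq_of_frequently {f g : Mer} {z : ℂ} (h : ∃ᶠ w in 𝓝[≠] z, fn f w = fn g w) : f = g := by
  by_contra hne
  have h1 : ¬ (fn f - fn g) =ᶠ[codiscrete ℂ] fun _ => 0 := by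
    intro hc
    refine hne ?_
    rw [← mk_fn f, ← mk_fn g, mk_eq_mk]
    filter_upwards [hc] with w hw
    exact sub_eq_zero.1 hw
  have h2 := ev_iff.1 (mer_ne ((fn_mero f).sub (fn_mero g)) h1) z
  refine h (h2.mono fun w hw h3 => hw ?_)
  rw [Pi.sub_apply, h3, sub_self]

theorem eq_of_eventually {f g : Mer} {z : ℂ} (h : fn f =ᶠ[𝓝[≠] z] fn g) : f = g :=
  eq_of_frequently h.frequently

theorem an_ev (f : Mer) : ∀ᶠ z in codiscrete ℂ, Reg f z :=
  ev_iff.2 fun x => (fn_mero f x).eventually_analyticAt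

theorem mul_mk (f : Mer) {g : ℂ → ℂ} (hg : Meromorphic g) :
    f * mk g hg = mk (fn f * g) ((fn_mero f).mul hg) := by
  rw [← mk_mul (fn_mero f) hg, mk_fn]

/-- the derivative -/
noncomputable def dd (f : Mer) : Mer := mk (deriv (fn f)) (fn_mero f).deriv

theorem dd_add (f g : Mer) : dd (f + g) = dd f + dd g := by
  rw [dd, dd, dd, mk_add, mk_eq_mk]
  filter_upwards [an_ev f, an_ev g] with z hf hg
  rw [(reg_add hf hg).2.deriv_eq]
  exact deriv_add hf.differentiableAt hg.differentiableAt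

theorem dd_mul (f g : Mer) : dd (f * g) = f * dd g + g * dd f := by
  rw [dd, dd, dd, mul_mk, mul_mk, mk_add, mk_eq_mk]
  filter_upwards [an_ev f, an_ev g] with z hf hg
  rw [(reg_mul hf hg).2.deriv_eq, deriv_mul hf.differentiableAt hg.differentiableAt]
  simp only [Pi.add_apply, Pi.mul_apply]
  ring

theorem dd_const (c : ℂ) : dd (algebraMap ℂ Mer c) = 0 := by
  rw [dd, ← mk_zero, mk_eq_mk]
  refine Eventually.of_forall fun z => ?_
  have h2 : fn (algebraMap ℂ Mer c) =ᶠ[𝓝 z] fun _ => c :=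
    (reg_mk (f := fun _ => c) (Meromorphic.const c) (z := z) analyticAt_const).2
  rw [h2.deriv_eq, deriv_const]

/-- the derivation -/
noncomputable def D : Derivation ℂ Mer Mer :=
  Derivation.mk'
    { toFun := dd
      map_add' := dd_add
      map_smul' := fun c f => by
        rw [RingHom.id_apply, Algebra.smul_def, Algebra.smul_def, dd_mul, dd_const, mul_zero,
          add_zero] }
    fun f g => dd_mul f g

theorem D_apply (f : Mer) : D f = dd f := rfl

theorem reg_D {f : Mer} {z : ℂ} (hf : Reg f z) : Reg (D f) z ∧ fn (D f) =ᶠ[𝓝 z] deriv (fn f) :=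
  reg_mk (fn_mero f).deriv (AnalyticAt.deriv hf)

/-- the functions which are regular at `z` -/
noncomputable def regAt (z : ℂ) : Subalgebra ℂ Mer where
  carrier := {f | Reg f z}
  mul_mem' := fun hf hg => (reg_mul hf hg).1
  add_mem' := fun hf hg => (reg_add hf hg).1
  algebraMap_mem' := fun c => (reg_const c z).1

theorem mem_regAt {z : ℂ} {f : Mer} : f ∈ regAt z ↔ Reg f z := Iff.rfl

/-- the value at `z` -/
noncomputable def ev (z : ℂ) : regAt z →ₐ[ℂ] ℂ where
  toFun f := fn f.1 z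
  map_one' := by
    have h := (reg_const 1 z).2
    rwa [map_one] at h
  map_zero' := by
    have h := (reg_const 0 z).2
    rwa [map_zero] at h
  map_mul' f g := (reg_mul f.2 g.2).2.eq_of_nhds
  map_add' f g := (reg_add f.2 g.2).2.eq_of_nhds
  commutes' c := (reg_const c z).2

theorem ev_apply {z : ℂ} (f : regAt z) : ev z f = fn f.1 z := rfl

/-- `f` is regular and bounded by `M` on the disc of radius `r` about `z₀` -/
def Bdd (f : Mer) (z₀ : ℂ) (r M : ℝ) : Prop := ∀ z ∈ Metric.ball z₀ r, Reg f z ∧ ‖fn f z‖ ≤ M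

/-- on all discs of some fixed radius, `x` or `1 / x` is bounded by a constant -/
def Tame (x : Mer) : Prop := ∃ r M : ℝ, 0 < r ∧ ∀ z₀, Bdd x z₀ r M ∨ Bdd x⁻¹ z₀ r M

/-- on large discs, neither `x` nor `1 / x` is bounded by `M` -/
def NoBig (x : Mer) : Prop := ∀ M : ℝ, ∃ R : ℝ, ∀ z₀, ¬ Bdd x z₀ R M ∧ ¬ Bdd x⁻¹ z₀ R M

/-- `p` is a period of `f` -/
def Per (p : ℂ) (f : Mer) : Prop := ∀ z, fn f (z + p) = fn f z

end Pool.Agent.PT
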