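import Pool.Agent.Lib_helper82.PT.AlgBase2
import Pool.Agent.Lib_helper82.PT.Mer
import Pool.Agent.Lib_helper80.IS.Iface

/-! # The plane theorem (MP_45e720_ag): further definitions -/

set_option autoImplicit false

open Filter Topology Metric Set
open scoped IntermediateField IntermediateField.algebraAdjoinAdjoin

namespace Pool.Agent.PT

/-- the derivation on a subfield of `Mer` -/
noncomputable def DK (K : IntermediateField ℂ Mer) : Derivation ℂ K Mer := D.compAlgebraMap K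

theorem DK_apply (K : IntermediateField ℂ Mer) (f : K) : DK K f = D (f : Mer) := rfl

/-- `φ i = H_i / H_j` -/
def IsCoord {n : ℕ} (H : ℂ → IS.PP n) (j : Fin (n + 1)) (φ : Fin (n + 1) → Mer) : Prop :=
  φ j = 1 ∧ ∀ (z₀ : ℂ) (F : ℂ → Fin (n + 1) → ℂ),
    (∀ᶠ z in 𝓝 z₀, AnalyticAt ℂ F z ∧ ∃ h : F z ≠ 0, H z = Projectivization.mk ℂ (F z) h) →
    ∀ᶠ z in 𝓝[≠] z₀, F z j ≠ 0 ∧ ∀ i, fn (φ i) z = F z i / F z j

end Pool.Agent.PT
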