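import Pool.Agent.Lib_helper82.PT.P.DI
import Pool.Agent.Lib_helper82.PT.P.C3
import Pool.Agent.Lib_helper82.PT.P.C4
import Pool.Agent.Lib_helper82.PT.P.C5
import Pool.Agent.Lib_helper82.PT.P.C6
import Pool.Agent.Lib_helper82.PT.P.C7
import Pool.Agent.Lib_helper82.PT.P.C8
import Pool.Agent.Lib_helper82.PT.P.C9
import Pool.Agent.Lib_helper82.PT.P.C10
import Pool.Agent.Lib_helper82.PT.P.E1
import Pool.Agent.Lib_helper82.PT.P.E2
import Pool.Agent.Lib_helper82.PT.P.E3
import Pool.Agent.Lib_helper82.PT.P.E4a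
import Pool.Agent.Lib_helper82.PT.P.E4b
import Pool.Agent.Lib_helper82.PT.P.E5a
import Pool.Agent.Lib_helper82.PT.P.E5b
import Pool.Agent.Lib_helper82.PT.P.E6
import Pool.Agent.Lib_helper82.PT.P.E7
import Pool.Agent.Lib_helper82.PT.P.E8

/-! # The plane theorem (MP_45e720_ag): assembly -/

set_option autoImplicit false

open Filter Topology Metric Set
open scoped IntermediateField IntermediateField.algebraAdjoinAdjoin

namespace Pool.Agent.PT

variable {K : IntermediateField ℂ Mer} {x : K}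

theorem kd_const (hT : Tame (x : Mer)) {l : Mer} (h : IsKd (DK K) x l) (h' : IsKd (DK K) x⁻¹ l) :
    ∃ c : ℂ, l = algebraMap ℂ Mer c := by
  obtain ⟨r, M, hr, hT⟩ := hT
  obtain ⟨C, hC⟩ := kd_small h M
  obtain ⟨C', hC'⟩ := kd_small h' M
  refine liouville (C := max (C / r) (C' / r)) fun z => ?_
  rcases hT z with h1 | h1
  · exact ⟨(hC z r hr h1).1, (hC z r hr h1).2.trans (le_max_left _ _)⟩
  · exact ⟨(hC' z r hr h1).1, (hC' z r hr h1).2.trans (le_max_right _ _)⟩

theorem fn_const (c z : ℂ) : fn (algebraMap ℂ Mer c) z = c := (reg_const c z).2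

theorem nobig {c : ℂ} (hc : c ≠ 0) (h : IsKd (DK K) x (algebraMap ℂ Mer c))
    (h' : IsKd (DK K) x⁻¹ (algebraMap ℂ Mer c)) : NoBig (x : Mer) := by
  intro M
  obtain ⟨C, hC⟩ := kd_small h M
  obtain ⟨C', hC'⟩ := kd_small h' M
  have hc0 : 0 < ‖c‖ := norm_pos_iff.2 hc
  have key : ∀ C R : ℝ, 0 < R → ‖c‖ * R > C → ¬ ‖c‖ ≤ C / R := by
    intro C R hR h1 h2
    rw [le_div_iff₀ hR] at h2
    linarith
  refine ⟨(|C| + |C'| + 1) / ‖c‖, fun z₀ => ?_⟩
  have hR : 0 < (|C| + |C'| + 1) / ‖c‖ := by positivity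
  have h1 : ‖c‖ * ((|C| + |C'| + 1) / ‖c‖) = |C| + |C'| + 1 := by field_simp
  constructor
  · intro hb
    have h2 := (hC z₀ _ hR hb).2
    rw [fn_const] at h2
    refine key _ _ hR ?_ h2
    rw [h1]
    have := le_abs_self C
    have := abs_nonneg C'
    linarith
  · intro hb
    have h2 := (hC' z₀ _ hR hb).2
    rw [fn_const] at h2
    refine key _ _ hR ?_ h2
    rw [h1]
    have := le_abs_self C'
    have := abs_nonneg C
    linarith

/-- a sequence along which a function tending to infinity increases -/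
theorem exists_seq (N : ℂ → ℝ) (P : ℂ → Prop) (h : ∀ k : ℕ, ∃ z, (k : ℝ) < N z ∧ P z) :
    ∃ z : ℕ → ℂ, (∀ k, P (z k)) ∧ StrictMono fun k => N (z k) := by
  choose Z hZ using h
  let z : ℕ → ℂ := fun k => Nat.rec (Z 0) (fun _ w => Z ⌈N w⌉₊) k
  have hz : ∀ k, z (k + 1) = Z ⌈N (z k)⌉₊ := fun _ => rfl
  refine ⟨z, fun k => ?_, strictMono_nat_of_lt_succ fun k => ?_⟩
  · cases k with
    | zero => exact (hZ 0).2
    | succ k => rw [hz]; exact (hZ _).2
  · rw [hz]
    exact (Nat.le_ceil _).trans_lt (hZ _).1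

theorem exists_periods (hx : Transcendental ℂ x) [FiniteDimensional ℂ⟮x⟯ K] (hT : Tame (x : Mer))
    {w : K} (hw0 : w ≠ 0) (hw : IsKd (DK K) x (w • DK K x)) (hw' : IsKd (DK K) x⁻¹ (w • DK K x)) :
    ∃ p q : ℂ, p ≠ 0 ∧ 0 < (q / p).im ∧ ∀ f : K, Per p (f : Mer) ∧ Per q (f : Mer) := by
  obtain ⟨c, hc⟩ := kd_const hT hw hw'
  have hxr : (x : Mer) ∉ (algebraMap ℂ Mer).range := by
    rintro ⟨a, ha⟩
    refine hx ?_
    have : x = algebraMap ℂ K a := Subtype.ext ha.symm
    rw [this]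
    exact isAlgebraic_algebraMap a
  have hw1 : (w : Mer) ≠ 0 := fun h => hw0 (Subtype.ext h)
  have hl : w • DK K x = (w : Mer) * D (x : Mer) := rfl
  have hDx : D (x : Mer) ≠ 0 := fun h => hxr (by
    obtain ⟨a, ha⟩ := const_of_D h
    exact ⟨a, ha.symm⟩)
  have hc0 : c ≠ 0 := by
    rintro rfl
    rw [hl, map_zero] at hc
    exact mul_ne_zero hw1 hDx hc
  rw [hc] at hw hw'
  have hB := nobig hc0 hw hw'
  have hDK : D (x : Mer) ∈ K := by
    have h1 : D (x : Mer) = (w : Mer)⁻¹ * algebraMap ℂ Mer c := by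
      rw [← hc, hl, inv_mul_cancel_left₀ hw1]
    rw [h1]
    exact mul_mem (inv_mem w.2) (algebraMap_mem K c)
  have hD : ∀ f : K, D (f : Mer) ∈ K := D_stable hDK
  have per : ∀ z : ℕ → ℂ, ∀ c₁ : ℂ, (∀ k, Reg (x : Mer) (z k) ∧ fn (x : Mer) (z k) = c₁) →
      ∃ i j : ℕ, i < j ∧ ∀ f : K, Per (z j - z i) (f : Mer) := by
    intro z c₁ hz
    obtain ⟨i, j, hij, h⟩ := pigeon hx z c₁ hz
    exact ⟨i, j, hij, fun f => same_place hx hD (hz i).1 (hz j).1 h f⟩
  -- the first period
  obtain ⟨c₁, h1⟩ := baire hxr (fun k => {z | (k : ℝ) < ‖z‖})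
    (fun k => isOpen_lt continuous_const continuous_norm)
    (fun k c₀ r hr => by
      obtain ⟨z, hz, h⟩ := dense_inf hB k c₀ hr
      exact ⟨z, hz, h⟩)
  obtain ⟨z, hz, hmono⟩ := exists_seq (fun z => ‖z‖) (fun z => Reg (x : Mer) z ∧ fn (x : Mer) z = c₁)
    (fun k => h1 k)
  obtain ⟨i, j, hij, hp⟩ := per z c₁ hz
  have hp0 : z j - z i ≠ 0 := fun h =>
    (hmono hij).ne (congrArg norm (sub_eq_zero.1 h).symm)
  set p := z j - z i with hpdef
  -- the second period
  obtain ⟨c₂, h2⟩ := baire hxr (fun k => {z | (k : ℝ) < (z / p).im})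
    (fun k => isOpen_lt continuous_const (Complex.continuous_im.comp (continuous_id.div_const p)))
    (fun k c₀ r hr => by
      obtain ⟨z, hz, h⟩ := dense_half hB hp0 (hp x) k c₀ hr
      exact ⟨z, hz, h⟩)
  obtain ⟨z', hz', hmono'⟩ := exists_seq (fun z => (z / p).im)
    (fun z => Reg (x : Mer) z ∧ fn (x : Mer) z = c₂) (fun k => h2 k)
  obtain ⟨i', j', hij', hq⟩ := per z' c₂ hz'
  refine ⟨p, z' j' - z' i', hp0, ?_, fun f => ⟨hp f, hq f⟩⟩
  have h3 := hmono' hij'
  simp only at h3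
  rw [sub_div, Complex.sub_im]
  linarith

theorem doublyPeriodic {X : Type} {H : ℂ → X} {p q : ℂ} (hp : p ≠ 0) (hq : 0 < (q / p).im)
    (h1 : ∀ z, H (z + p) = H z) (h2 : ∀ z, H (z + q) = H z) : BrodyRigid.DoublyPeriodic H := by
  have hli : LinearIndependent ℝ ![p, q] := by
    rw [LinearIndependent.pair_iff]
    intro s t hst
    have h3 : (s : ℂ) + t * (q / p) = 0 := by
      have h4 : (s : ℂ) * p + t * q = 0 := by simpa using hst
      field_simp
      linear_combination h4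
    have h5 : t = 0 := by
      have h6 := congrArg Complex.im h3
      simp only [Complex.add_im, Complex.ofReal_im, Complex.mul_im, Complex.ofReal_re, zero_mul,
        add_zero, zero_add, Complex.zero_im, mul_eq_zero] at h6
      rcases h6 with h6 | h6
      · exact h6
      · exact absurd h6 hq.ne'
    subst h5
    simpa using h3
  let b := basisOfLinearIndependentOfCardEqFinrank hli (by simp [Complex.finrank_real_complex])
  refine ⟨Submodule.span ℤ (range b), inferInstance, inferInstance, ?_⟩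
  intro l hl
  induction hl using Submodule.span_induction with
  | mem x hx =>
    obtain ⟨i, rfl⟩ := hx
    have hb : (b i : ℂ) = ![p, q] i := by
      rw [coe_basisOfLinearIndependentOfCardEqFinrank]
    intro z
    rw [hb]
    fin_cases i
    · exact h1 z
    · exact h2 z
  | zero => intro z; rw [add_zero]
  | add x y _ _ hx hy => intro z; rw [← add_assoc, hy, hx]
  | smul a x _ hx =>
    have h3 : ∀ (m : ℕ) z, H (z + m * x) = H z := by
      intro m
      induction m with
      | zero => intro z; simp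
      | succ m ih =>
        intro z
        have : z + ((m + 1 : ℕ) : ℂ) * x = (z + m * x) + x := by push_cast; ring
        rw [this, hx, ih]
    intro z
    rcases Int.eq_nat_or_neg a with ⟨m, rfl | rfl⟩
    · have : z + (m : ℤ) • x = z + m * x := by simp
      rw [this, h3]
    · have h4 : z + (-(m : ℤ)) • x + m * x = z := by simp
      rw [← h3 m, h4]

theorem plane : IS.PlaneTheorem := by
  intro n H hU hR hne
  have hH := holP_of_unif hU
  obtain ⟨j, φ, hc⟩ := exists_coord hH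
  obtain ⟨l, ε, hε, hl⟩ := exists_form (zero_set hH hc hR)
  have hT := form_tame hU hc l ε hε hl
  have hx0 := form_nonconst hH hc hne l ε hε hl
  have hmem : ∀ i, φ i ∈ IntermediateField.adjoin ℂ (range φ) := fun i =>
    IntermediateField.subset_adjoin ℂ _ (mem_range_self i)
  let x : IntermediateField.adjoin ℂ (range φ) := ⟨∑ i, algebraMap ℂ Mer (l i) * φ i,
    sum_mem fun i _ => mul_mem (algebraMap_mem _ _) (hmem i)⟩
  obtain ⟨htr, hfd⟩ := fin_ext φ (rel2 hH hc hR) x hx0
  rcases dichotomy (DK _) htr with ⟨t, ht⟩ | ⟨w, hw0, hw, hw'⟩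
  · right
    have h1 : ∀ i, φ i ∈ ℂ⟮(t : Mer)⟯ := by
      intro i
      have h2 : (⟨φ i, hmem i⟩ : IntermediateField.adjoin ℂ (range φ)) ∈ ℂ⟮t⟯ := by
        rw [ht]
        exact IntermediateField.mem_top
      have h3 := IntermediateField.adjoin_map ℂ {t} (IntermediateField.val
        (IntermediateField.adjoin ℂ (range φ)))
      rw [image_singleton] at h3
      have h4 : φ i ∈ (ℂ⟮t⟯).map (IntermediateField.val (IntermediateField.adjoin ℂ (range φ))) :=
        ⟨_, h2, rfl⟩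
      rw [h3] at h4
      exact h4
    obtain ⟨d, P, hP, hP', g, hg, h⟩ := rat_poly φ hc.1 (t : Mer) h1
    exact rat_H hH hc (t : Mer) d P hP hP' g hg h
  · left
    obtain ⟨p, q, hp0, hq, hper⟩ := exists_periods htr hT hw0 hw hw'
    exact doublyPeriodic hp0 hq (per_H hH hc fun i => (hper ⟨φ i, hmem i⟩).1)
      (per_H hH hc fun i => (hper ⟨φ i, hmem i⟩).2)

end Pool.Agent.PT
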