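import Mathlib

/-! # Function fields of curves (MP_45e720_ag): algebra, definitions and set-up -/

set_option autoImplicit false

open Polynomial
open scoped IntermediateField IntermediateField.algebraAdjoinAdjoin

namespace Pool.Agent.PT

section defs

variable {K : Type} [Field K] [Algebra ℂ K]

/-- the elements of `K` which are integral over `ℂ[x]` -/
noncomputable def IntOver (x : K) : Subalgebra ℂ K :=
  (integralClosure (Algebra.adjoin ℂ {x}) K).restrictScalars ℂ

theorem mem_intOver {x f : K} : f ∈ IntOver x ↔ IsIntegral (Algebra.adjoin ℂ {x}) f := Iff.rfl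

theorem self_mem (x : K) : x ∈ IntOver x :=
  mem_intOver.2 (isIntegral_algebraMap (R := Algebra.adjoin ℂ {x})
    (x := ⟨x, Algebra.self_mem_adjoin_singleton ℂ x⟩))

/-- the trace of `K` over `ℂ(x)`, as an element of `K` -/
noncomputable def tr (x f : K) : K := algebraMap ℂ⟮x⟯ K (Algebra.trace ℂ⟮x⟯ K f)

/-- the norm of `K` over `ℂ(x)`, as an element of `K` -/
noncomputable def nm (x f : K) : K := algebraMap ℂ⟮x⟯ K (Algebra.norm ℂ⟮x⟯ f)

/-- `w` is in the complementary module (inverse different) of the elements integral over `ℂ[x]` -/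
def CoD (x w : K) : Prop := ∀ a ∈ IntOver x, tr x (w * a) ∈ Algebra.adjoin ℂ {x}

variable {L : Type} [Field L] [Algebra ℂ L] [Algebra K L]

/-- `l` is a sum of terms `b δ(y)` where `b`, `y` are integral over `ℂ[x]` -/
def IsKd (δ : Derivation ℂ K L) (x : K) (l : L) : Prop :=
  ∃ (n : ℕ) (b y : Fin n → K), (∀ i, b i ∈ IntOver x ∧ y i ∈ IntOver x) ∧
    l = ∑ i, b i • δ (y i)

end defs

section setup

variable {K : Type} [Field K] [Algebra ℂ K] (x : K)

theorem pid (hx : Transcendental ℂ x) : IsPrincipalIdealRing (Algebra.adjoin ℂ {x}) :=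
  IsPrincipalIdealRing.of_surjective (Polynomial.algEquivOfTranscendental ℂ x hx).toRingHom
    (Polynomial.algEquivOfTranscendental ℂ x hx).surjective

theorem tower : IsScalarTower (Algebra.adjoin ℂ {x}) ℂ⟮x⟯ K := inferInstance

theorem ded (hx : Transcendental ℂ x) [FiniteDimensional ℂ⟮x⟯ K] :
    IsDedekindDomain (integralClosure (Algebra.adjoin ℂ {x}) K) := by
  have := pid x hx
  exact integralClosure.isDedekindDomain (Algebra.adjoin ℂ {x}) ℂ⟮x⟯ K

theorem fini (hx : Transcendental ℂ x) [FiniteDimensional ℂ⟮x⟯ K] :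
    Module.Finite (Algebra.adjoin ℂ {x}) (integralClosure (Algebra.adjoin ℂ {x}) K) := by
  have := pid x hx
  exact IsIntegralClosure.finite (Algebra.adjoin ℂ {x}) ℂ⟮x⟯ K _

theorem frac (hx : Transcendental ℂ x) [FiniteDimensional ℂ⟮x⟯ K] :
    IsFractionRing (integralClosure (Algebra.adjoin ℂ {x}) K) K := by
  have := pid x hx
  exact integralClosure.isFractionRing_of_finite_extension ℂ⟮x⟯ K

theorem free (hx : Transcendental ℂ x) [FiniteDimensional ℂ⟮x⟯ K] :
    Module.Free (Algebra.adjoin ℂ {x}) (integralClosure (Algebra.adjoin ℂ {x}) K) := by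
  have := pid x hx
  exact IsIntegralClosure.module_free (Algebra.adjoin ℂ {x}) ℂ⟮x⟯ K _

end setup

end Pool.Agent.PT
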