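import Pool.Agent.Lib_helper82.PT.AlgBase

/-! # Function fields of curves (MP_45e720_ag): auxiliary facts -/

set_option autoImplicit false

open Polynomial
open scoped IntermediateField IntermediateField.algebraAdjoinAdjoin

namespace Pool.Agent.PT

variable {K : Type} [Field K] [Algebra ℂ K] {x : K}

theorem ne_zero_of_tr (hx : Transcendental ℂ x) : x ≠ 0 := by
  rintro rfl
  exact hx isAlgebraic_zero

theorem inv_tr (hx : Transcendental ℂ x) : Transcendental ℂ x⁻¹ := fun h => hx (by
  have := h.inv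
  rwa [inv_inv] at this)

theorem adj_inv (x : K) : ℂ⟮x⁻¹⟯ = ℂ⟮x⟯ := by
  refine le_antisymm ?_ ?_
  · rw [IntermediateField.adjoin_simple_le_iff]
    exact inv_mem (IntermediateField.mem_adjoin_simple_self ℂ x)
  · rw [IntermediateField.adjoin_simple_le_iff]
    have := inv_mem (IntermediateField.mem_adjoin_simple_self ℂ x⁻¹)
    rwa [inv_inv] at this

theorem fd_inv (x : K) [h : FiniteDimensional ℂ⟮x⟯ K] : FiniteDimensional ℂ⟮x⁻¹⟯ K := by
  rw [adj_inv]
  exact h

theorem tr_inv (x f : K) : tr x⁻¹ f = tr x f := by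
  have h : ∀ F G : IntermediateField ℂ K, F = G →
      algebraMap F K (Algebra.trace F K f) = algebraMap G K (Algebra.trace G K f) := by
    rintro F G rfl
    rfl
  exact h _ _ (adj_inv x)

variable {L : Type} [Field L] [Algebra ℂ L] [Algebra K L] [IsScalarTower ℂ K L]

theorem kd_neg {δ : Derivation ℂ K L} {l : L} (h : IsKd δ x l) : IsKd δ x (-l) := by
  obtain ⟨n, b, y, hs, rfl⟩ := h
  exact ⟨n, fun i => -b i, y, fun i => ⟨neg_mem (hs i).1, (hs i).2⟩, by simp⟩

end Pool.Agent.PT
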